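import Pool.Agent.H174.GP.StA
import Pool.Agent.H174.GP.StP
import Pool.Agent.H174.GP.StC
import Pool.Agent.H174.GP.StB

/-!
# GP B4u (for helper174): upper bound for `aa`
-/

open MeasureTheory ProbabilityTheory Finset Filter Topology

namespace Pool.Agent.H767.GP174

open Pool.Agent.H174.GP

theorem gp_b4u (h1 : S_decomp) (h2 : S_beta1) : Pool.Agent.H174.GP.S_B4u := by
  intro s1 s2 hs1 hs2
  obtain ⟨c, hc0, hc1, c', hc', d0, hd0, H⟩ := h1 s1 s2 hs1 hs2
  obtain ⟨C2, hC2, HB⟩ := h2 (s1 / 4) s2 (by positivity) hs2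
  refine ⟨8 * C2 * (1 / c' + 1 / Real.sqrt c), by positivity, d0,
    fun d hd σ hσ hσ1 hσ2 m => ?_⟩
  have hd12 : 12 ≤ d := hd0.trans hd
  have hdpos : (0 : ℝ) < d := by exact_mod_cast (by omega : 0 < d)
  have hexp : (d : ℝ) ^ (-(3 / 2) : ℝ) = 1 / ((d : ℝ) * Real.sqrt d) := by
    rw [Real.rpow_neg hdpos.le, one_div, Real.sqrt_eq_rpow]
    congr 1
    have e1 : (3 / 2 : ℝ) = 1 + 1 / 2 := by norm_num
    rw [e1, Real.rpow_add hdpos, Real.rpow_one]
  rcases lt_or_ge m 0 with hm | hm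
  · have h0 : aa d σ m = 0 := by
      unfold aa
      rw [if_neg (not_le.mpr hm)]
    rw [h0]
    positivity
  obtain ⟨M, rfl⟩ := Int.eq_ofNat_of_zero_le hm
  obtain ⟨q, hq0, hq1, hq2, hq3⟩ := H d hd σ hσ hσ1 hσ2
  rw [hq1 M]
  obtain ⟨D, hD⟩ : ∃ D : ℕ, D = d / 3 := ⟨_, rfl⟩
  rw [← hD] at hq1 hq2 hq3 ⊢
  have hD1 : 1 ≤ D := by omega
  have hDd : d ≤ 4 * D := by omega
  have hDd' : D ≤ d := by omega
  have hDr : (d : ℝ) / 4 ≤ D := by
    have : (d : ℝ) ≤ 4 * D := by exact_mod_cast hDd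
    linarith
  have hDr' : (D : ℝ) ≤ d := by exact_mod_cast hDd'
  have hDpos : (0 : ℝ) < D := by exact_mod_cast hD1
  have hD1r : (1 : ℝ) ≤ D := by exact_mod_cast hD1
  have hb : ∀ n t : ℕ, beta D σ n t ≤ C2 / (D * Real.sqrt ((n : ℝ) + 1)) := by
    refine HB D σ hD1 hσ ?_ ?_
    · calc s1 / 4 ≤ σ * d / 4 := by linarith
        _ = σ * (d / 4) := by ring
        _ ≤ σ * D := mul_le_mul_of_nonneg_left hDr hσ.le
    · exact (mul_le_mul_of_nonneg_left hDr' hσ.le).trans hσ2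
  have hsc : 0 < Real.sqrt c := Real.sqrt_pos.mpr hc0
  have hsD : 0 < Real.sqrt D := Real.sqrt_pos.mpr hDpos
  -- the two bounds for `beta`
  have hb1 : ∀ n t : ℕ, beta D σ n t ≤ C2 / D := by
    intro n t
    refine (hb n t).trans ?_
    refine div_le_div_of_nonneg_left hC2.le hDpos ?_
    have h3 : 1 ≤ Real.sqrt ((n : ℝ) + 1) := by
      rw [Real.one_le_sqrt]
      have : (0 : ℝ) ≤ n := Nat.cast_nonneg n
      linarith
    calc (D : ℝ) = D * 1 := (mul_one _).symm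
      _ ≤ D * Real.sqrt ((n : ℝ) + 1) := mul_le_mul_of_nonneg_left h3 hDpos.le
  have hb2 : ∀ n t : ℕ, c * (D : ℝ) ≤ n → beta D σ n t ≤ C2 / (D * (Real.sqrt c * Real.sqrt D)) := by
    intro n t hn
    refine (hb n t).trans ?_
    refine div_le_div_of_nonneg_left hC2.le (by positivity) ?_
    refine mul_le_mul_of_nonneg_left ?_ hDpos.le
    rw [← Real.sqrt_mul hc0.le]
    exact Real.sqrt_le_sqrt (by linarith)
  -- split the sum
  have hsplit := Finset.sum_filter_add_sum_filter_not (Finset.range (D + 1))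
    (fun n : ℕ => (n : ℝ) < c * (D : ℝ))
    (fun n => ∑ k ∈ Finset.range (M + 1), q n k * beta D σ n (M - k))
  rw [← hsplit]
  have hA : ∑ n ∈ (Finset.range (D + 1)).filter (fun n : ℕ => (n : ℝ) < c * (D : ℝ)),
      ∑ k ∈ Finset.range (M + 1), q n k * beta D σ n (M - k) ≤
      Real.exp (-(c' * (D : ℝ))) * (C2 / D) := by
    calc _ ≤ ∑ n ∈ (Finset.range (D + 1)).filter (fun n : ℕ => (n : ℝ) < c * (D : ℝ)),
        ∑ k ∈ Finset.range (M + 1), q n k * (C2 / D) := by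
          refine Finset.sum_le_sum fun n _ => Finset.sum_le_sum fun k _ => ?_
          exact mul_le_mul_of_nonneg_left (hb1 n _) (hq0 n k)
      _ = (∑ n ∈ (Finset.range (D + 1)).filter (fun n : ℕ => (n : ℝ) < c * (D : ℝ)),
        ∑ k ∈ Finset.range (M + 1), q n k) * (C2 / D) := by
          rw [Finset.sum_mul]
          exact Finset.sum_congr rfl fun n _ => (Finset.sum_mul _ _ _).symm
      _ ≤ _ := mul_le_mul_of_nonneg_right (hq3 (M + 1)) (by positivity)
  have hB : ∑ n ∈ (Finset.range (D + 1)).filter (fun n : ℕ => ¬ (n : ℝ) < c * (D : ℝ)),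
      ∑ k ∈ Finset.range (M + 1), q n k * beta D σ n (M - k) ≤
      1 * (C2 / (D * (Real.sqrt c * Real.sqrt D))) := by
    calc _ ≤ ∑ n ∈ (Finset.range (D + 1)).filter (fun n : ℕ => ¬ (n : ℝ) < c * (D : ℝ)),
        ∑ k ∈ Finset.range (M + 1), q n k * (C2 / (D * (Real.sqrt c * Real.sqrt D))) := by
          refine Finset.sum_le_sum fun n hn => Finset.sum_le_sum fun k _ => ?_
          rw [Finset.mem_filter] at hn
          exact mul_le_mul_of_nonneg_left (hb2 n _ (not_lt.mp hn.2)) (hq0 n k)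
      _ ≤ ∑ n ∈ Finset.range (D + 1),
        ∑ k ∈ Finset.range (M + 1), q n k * (C2 / (D * (Real.sqrt c * Real.sqrt D))) := by
          refine Finset.sum_le_sum_of_subset_of_nonneg (Finset.filter_subset _ _) fun n _ _ => ?_
          exact Finset.sum_nonneg fun k _ => mul_nonneg (hq0 n k) (by positivity)
      _ = (∑ n ∈ Finset.range (D + 1), ∑ k ∈ Finset.range (M + 1), q n k) *
        (C2 / (D * (Real.sqrt c * Real.sqrt D))) := by
          rw [Finset.sum_mul]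
          exact Finset.sum_congr rfl fun n _ => (Finset.sum_mul _ _ _).symm
      _ ≤ _ := mul_le_mul_of_nonneg_right (hq2 (M + 1)) (by positivity)
  have hE : Real.exp (-(c' * (D : ℝ))) ≤ 1 / (c' * Real.sqrt D) := by
    rw [Real.exp_neg, ← one_div]
    refine one_div_le_one_div_of_le (by positivity) ?_
    have h4 : c' * (D : ℝ) ≤ Real.exp (c' * (D : ℝ)) := by
      have := Real.add_one_le_exp (c' * (D : ℝ))
      linarith
    refine le_trans ?_ h4
    refine mul_le_mul_of_nonneg_left ?_ hc'.le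
    rw [Real.sqrt_le_left hDpos.le]
    nlinarith
  have hF : 1 / ((D : ℝ) * Real.sqrt D) ≤ 8 * (1 / ((d : ℝ) * Real.sqrt d)) := by
    have h5 : Real.sqrt ((d : ℝ) / 4) = Real.sqrt d / 2 := by
      rw [Real.sqrt_div' _ (by norm_num : (0 : ℝ) ≤ 4)]
      congr 1
      rw [show (4 : ℝ) = 2 ^ 2 by norm_num, Real.sqrt_sq (by norm_num)]
    have h6 : Real.sqrt d / 2 ≤ Real.sqrt D := by
      rw [← h5]
      exact Real.sqrt_le_sqrt hDr
    have hsd : 0 < Real.sqrt (d : ℝ) := Real.sqrt_pos.mpr hdpos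
    have h7 : (d : ℝ) / 4 * (Real.sqrt d / 2) ≤ D * Real.sqrt D :=
      mul_le_mul hDr h6 (by positivity) hDpos.le
    have h8 : 1 / ((D : ℝ) * Real.sqrt D) ≤ 1 / ((d : ℝ) / 4 * (Real.sqrt d / 2)) :=
      one_div_le_one_div_of_le (by positivity) h7
    refine h8.trans (le_of_eq ?_)
    field_simp
    norm_num
  have hG : Real.exp (-(c' * (D : ℝ))) * (C2 / D) ≤ C2 * (1 / c') * (1 / ((D : ℝ) * Real.sqrt D)) := by
    calc Real.exp (-(c' * (D : ℝ))) * (C2 / D) ≤ 1 / (c' * Real.sqrt D) * (C2 / D) :=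
          mul_le_mul_of_nonneg_right hE (by positivity)
      _ = _ := by field_simp
  have hH : 1 * (C2 / (D * (Real.sqrt c * Real.sqrt D))) =
      C2 * (1 / Real.sqrt c) * (1 / ((D : ℝ) * Real.sqrt D)) := by
    field_simp
  calc _ ≤ C2 * (1 / c') * (1 / ((D : ℝ) * Real.sqrt D)) +
        C2 * (1 / Real.sqrt c) * (1 / ((D : ℝ) * Real.sqrt D)) :=
        add_le_add (hA.trans hG) (hB.trans (le_of_eq hH))
    _ = C2 * (1 / c' + 1 / Real.sqrt c) * (1 / ((D : ℝ) * Real.sqrt D)) := by ring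
    _ ≤ C2 * (1 / c' + 1 / Real.sqrt c) * (8 * (1 / ((d : ℝ) * Real.sqrt d))) :=
        mul_le_mul_of_nonneg_left hF (by positivity)
    _ = 8 * C2 * (1 / c' + 1 / Real.sqrt c) * (d : ℝ) ^ (-(3 / 2) : ℝ) := by
        rw [hexp]
        ring

end Pool.Agent.H767.GP174
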